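import Pool.Agent.Lib_helper50.A56.T.F12a2

/-!
# MP_a55cb8: block T12a3 (helper78): the core of a sampled operator
-/

open Matrix Finset

namespace A56

theorem T12a3_mul {a m t : ℕ} (h : a * (t + 1) ≤ m * t) : a ≤ m := by
  by_contra h1
  have h2 : (m + 1) * t ≤ a * t := Nat.mul_le_mul_right _ (not_le.1 h1)
  have h3 : a * t ≤ a * (t + 1) := Nat.mul_le_mul_left _ (Nat.le_succ t)
  have h4 : (m + 1) * t = m * t + t := by ring
  rcases Nat.eq_zero_or_pos t with h5 | h5
  · subst h5
    simp only [Nat.mul_zero, Nat.zero_add, Nat.mul_one] at h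
    omega
  · omega

/-- a sum of row counts over a set of rows -/
theorem T12a3_row (L : CooT.den) (R : Finset ℕ) (P : ℕ → Prop) [DecidablePred P]
    (hR : ∀ p ∈ R, P p) : ∑ p ∈ R, rowCnt L p ≤ ((range L.1).filter fun e => P (L.2.1 e)).card := by
  have h1 : ∑ p ∈ R, rowCnt L p = ((range L.1).filter fun e => L.2.1 e ∈ R).card := by
    rw [Finset.card_eq_sum_card_fiberwise (f := L.2.1) (t := R)]
    · refine Finset.sum_congr rfl fun p hp => ?_
      unfold rowCnt
      rw [Finset.filter_filter]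
      congr 1
      ext e
      simp only [mem_filter, mem_range]
      constructor
      · rintro ⟨h1, h2⟩
        exact ⟨h1, by rw [h2]; exact hp, h2⟩
      · rintro ⟨h1, _, h2⟩
        exact ⟨h1, h2⟩
    · intro e he
      exact (Finset.mem_filter.1 he).2
  rw [h1]
  refine Finset.card_le_card fun e he => ?_
  obtain ⟨h2, h3⟩ := Finset.mem_filter.1 he
  exact Finset.mem_filter.2 ⟨h2, hR _ h3⟩

theorem T12a3_col (L : CooT.den) (R : Finset ℕ) (P : ℕ → Prop) [DecidablePred P]
    (hR : ∀ p ∈ R, P p) :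
    ∑ p ∈ R, colCnt L p ≤ ((range L.1).filter fun e => P (L.2.2.1 e)).card := by
  have h1 : ∑ p ∈ R, colCnt L p = ((range L.1).filter fun e => L.2.2.1 e ∈ R).card := by
    rw [Finset.card_eq_sum_card_fiberwise (f := L.2.2.1) (t := R)]
    · refine Finset.sum_congr rfl fun p hp => ?_
      unfold colCnt
      rw [Finset.filter_filter]
      congr 1
      ext e
      simp only [mem_filter, mem_range]
      constructor
      · rintro ⟨h1, h2⟩
        exact ⟨h1, by rw [h2]; exact hp, h2⟩
      · rintro ⟨h1, _, h2⟩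
        exact ⟨h1, h2⟩
    · intro e he
      exact (Finset.mem_filter.1 he).2
  rw [h1]
  refine Finset.card_le_card fun e he => ?_
  obtain ⟨h2, h3⟩ := Finset.mem_filter.1 he
  exact Finset.mem_filter.2 ⟨h2, hR _ h3⟩

open Classical in
/-- the number of rows of the core -/
theorem core_rows (x : OpT.den) (fr fc : ℕ → ℕ) (t m : ℕ) (h : opRest x fr fc ≤ m * t) :
    ((range (opR x)).filter fun p => coreRow x fr fc t p).card ≤
      ((range (opR x)).filter fun p => fr p ≠ 0).card +
      ((range x.2.2.1.1.1).filter fun e => fr (x.2.2.1.1.2.1 e) = 0 ∧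
        fc (x.2.2.1.1.2.2.1 e) = 0).card + m := by
  set R := (range (opR x)).filter fun p => fr p = 0 ∧
    t < rowCnt x.2.2.1.1 p + rowCnt x.2.2.1.2 p with hR
  have h1 : ((range (opR x)).filter fun p => coreRow x fr fc t p) ⊆
      (((range (opR x)).filter fun p => fr p ≠ 0) ∪
        (((range x.2.2.1.1.1).filter fun e => fr (x.2.2.1.1.2.1 e) = 0 ∧
        fc (x.2.2.1.1.2.2.1 e) = 0).image x.2.2.1.1.2.1)) ∪ R := by
    intro p hp
    obtain ⟨hp1, hp2⟩ := Finset.mem_filter.1 hp
    by_cases h0 : fr p = 0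
    · rcases hp2 with h2 | ⟨e, he, hr, hc⟩ | h2
      · exact absurd h0 h2
      · refine Finset.mem_union_left _ (Finset.mem_union_right _ (Finset.mem_image.2
          ⟨e, Finset.mem_filter.2 ⟨Finset.mem_range.2 he, ?_, hc⟩, hr⟩))
        rw [hr]
        exact h0
      · exact Finset.mem_union_right _ (Finset.mem_filter.2 ⟨hp1, h0, h2⟩)
    · exact Finset.mem_union_left _ (Finset.mem_union_left _ (Finset.mem_filter.2 ⟨hp1, h0⟩))
  have h2 : R.card ≤ m := by
    refine T12a3_mul (t := t) (le_trans ?_ h)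
    calc R.card * (t + 1) = ∑ p ∈ R, (t + 1) := by rw [Finset.sum_const, smul_eq_mul]
      _ ≤ ∑ p ∈ R, (rowCnt x.2.2.1.1 p + rowCnt x.2.2.1.2 p) :=
          Finset.sum_le_sum fun p hp => (Finset.mem_filter.1 hp).2.2
      _ = ∑ p ∈ R, rowCnt x.2.2.1.1 p + ∑ p ∈ R, rowCnt x.2.2.1.2 p := Finset.sum_add_distrib
      _ ≤ ((range x.2.2.1.1.1).filter fun e => fr (x.2.2.1.1.2.1 e) = 0).card +
          ((range x.2.2.1.2.1).filter fun e => fr (x.2.2.1.2.2.1 e) = 0).card :=
          Nat.add_le_add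
            (T12a3_row _ R (fun p => fr p = 0) fun p hp => (Finset.mem_filter.1 hp).2.1)
            (T12a3_row _ R (fun p => fr p = 0) fun p hp => (Finset.mem_filter.1 hp).2.1)
      _ ≤ opRest x fr fc := by
          have h3 : ((range x.2.2.1.1.1).filter fun e => fr (x.2.2.1.1.2.1 e) = 0).card ≤
              ((range x.2.2.1.1.1).filter fun e => fr (x.2.2.1.1.2.1 e) = 0 ∨
                fc (x.2.2.1.1.2.2.1 e) = 0).card :=
            Finset.card_le_card fun e he => by
              obtain ⟨a1, a2⟩ := Finset.mem_filter.1 he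
              exact Finset.mem_filter.2 ⟨a1, Or.inl a2⟩
          unfold opRest
          omega
  refine (Finset.card_le_card h1).trans ((Finset.card_union_le _ _).trans ?_)
  refine Nat.add_le_add ((Finset.card_union_le _ _).trans ?_) h2
  exact Nat.add_le_add_left Finset.card_image_le _

open Classical in
/-- the number of columns of the core -/
theorem core_cols (x : OpT.den) (fr fc : ℕ → ℕ) (t m : ℕ) (h : opRest x fr fc ≤ m * t) :
    ((range (opC x)).filter fun p => coreCol x fc t p).card ≤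
      ((range (opC x)).filter fun p => fc p ≠ 0).card + m := by
  set R := (range (opC x)).filter fun p => fc p = 0 ∧
    t < colCnt x.2.2.1.1 p + colCnt x.2.2.2.1 p with hR
  have h1 : ((range (opC x)).filter fun p => coreCol x fc t p) ⊆
      ((range (opC x)).filter fun p => fc p ≠ 0) ∪ R := by
    intro p hp
    obtain ⟨hp1, hp2⟩ := Finset.mem_filter.1 hp
    by_cases h0 : fc p = 0
    · rcases hp2 with h2 | h2
      · exact absurd h0 h2
      · exact Finset.mem_union_right _ (Finset.mem_filter.2 ⟨hp1, h0, h2⟩)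
    · exact Finset.mem_union_left _ (Finset.mem_filter.2 ⟨hp1, h0⟩)
  have h2 : R.card ≤ m := by
    refine T12a3_mul (t := t) (le_trans ?_ h)
    calc R.card * (t + 1) = ∑ p ∈ R, (t + 1) := by rw [Finset.sum_const, smul_eq_mul]
      _ ≤ ∑ p ∈ R, (colCnt x.2.2.1.1 p + colCnt x.2.2.2.1 p) :=
          Finset.sum_le_sum fun p hp => (Finset.mem_filter.1 hp).2.2
      _ = ∑ p ∈ R, colCnt x.2.2.1.1 p + ∑ p ∈ R, colCnt x.2.2.2.1 p := Finset.sum_add_distrib
      _ ≤ ((range x.2.2.1.1.1).filter fun e => fc (x.2.2.1.1.2.2.1 e) = 0).card +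
          ((range x.2.2.2.1.1).filter fun e => fc (x.2.2.2.1.2.2.1 e) = 0).card :=
          Nat.add_le_add
            (T12a3_col _ R (fun p => fc p = 0) fun p hp => (Finset.mem_filter.1 hp).2.1)
            (T12a3_col _ R (fun p => fc p = 0) fun p hp => (Finset.mem_filter.1 hp).2.1)
      _ ≤ opRest x fr fc := by
          have h3 : ((range x.2.2.1.1.1).filter fun e => fc (x.2.2.1.1.2.2.1 e) = 0).card ≤
              ((range x.2.2.1.1.1).filter fun e => fr (x.2.2.1.1.2.1 e) = 0 ∨
                fc (x.2.2.1.1.2.2.1 e) = 0).card :=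
            Finset.card_le_card fun e he => by
              obtain ⟨a1, a2⟩ := Finset.mem_filter.1 he
              exact Finset.mem_filter.2 ⟨a1, Or.inr a2⟩
          unfold opRest
          omega
  exact (Finset.card_le_card h1).trans ((Finset.card_union_le _ _).trans
    (Nat.add_le_add_left h2 _))

section
variable {mm : ℕ → ℕ} (Φ : Lib mm)

/-- the core of a sampled operator: the whole operator is small, or few light entries -/
theorem mk_core {n : ℕ} (E : OpT.den) (S T : SDT.den) (hE : OpOK E) (hEn : E.1 = (n, n))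
    (hS : SDOK n S) (hT : SDOK n T) (t m H : ℕ)
    (h : (S.1 ≤ H ∧ T.1 ≤ H) ∨
      (opRest (Φ.mkOp (E, (S, T))) S.2.2.2 T.2.2.2 ≤ m * t ∧
      ((keptP n S).filter (fun i : Fin n => S.2.2.2 (S.2.1 i - 1) ≠ 0)).card +
        pairL E.2.2.1.1 S T + m ≤ H ∧
      ((keptP n T).filter (fun i : Fin n => T.2.2.2 (T.2.1 i - 1) ≠ 0)).card + m ≤ H)) :
    opCore (Φ.mkOp (E, (S, T))) S.2.2.2 T.2.2.2 t H := by
  classical
  obtain ⟨_, k1, k2, _⟩ := Φ.mkOp_eq E S T n hE hEn hS hT
  have hR : opR (Φ.mkOp (E, (S, T))) = S.1 := by unfold opR; rw [k1]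
  have hC : opC (Φ.mkOp (E, (S, T))) = T.1 := by unfold opC; rw [k1]
  rcases h with ⟨h1, h2⟩ | ⟨h1, h2, h3⟩
  · unfold opCore
    constructor
    · refine le_trans ((Finset.card_filter_le _ _).trans (le_of_eq ?_)) h1
      rw [Finset.card_range, hR]
    · refine le_trans ((Finset.card_filter_le _ _).trans (le_of_eq ?_)) h2
      rw [Finset.card_range, hC]
  · have e1 := T12a2_kept hS (fun p => S.2.2.2 p ≠ 0) (fun _ => 1)
    have e2 := T12a2_kept hT (fun p => T.2.2.2 p ≠ 0) (fun _ => 1)
    rw [Finset.sum_const, Finset.sum_const, smul_eq_mul, smul_eq_mul, mul_one, mul_one] at e1 e2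
    have e3 := Φ.mkOp_cnt E S T n hE hEn hS hT (fun i j => S.2.2.2 i = 0 ∧ T.2.2.2 j = 0)
    have c1 := core_rows _ _ _ t m h1
    have c2 := core_cols _ _ _ t m h1
    rw [hR, e1] at c1
    rw [hC, e2] at c2
    unfold opCore
    rw [hR, hC]
    constructor
    · refine le_trans c1 (le_trans (le_of_eq ?_) h2)
      congr 2
    · exact c2.trans h3

end

end A56
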