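import Pool.Agent.Lib_helper50.A56.T.F12a1
import Pool.Agent.Lib_helper50.A56.T.F12a2
import Pool.Agent.Lib_helper50.A56.T.F12a3
import Pool.Agent.Lib_helper50.A56.T.F12h

/-!
# MP_a55cb8, block T12b (helper37): the sizes of a new level
-/

open Matrix Finset

namespace A56

/-! ## stubs -/





/-! ## counting -/

theorem T12b_S {n : ℕ} {S : SDT.den} (h : SDOK n S) (F : Finset (Fin n))
    (hF : ∀ i : Fin n, S.2.1 i ≠ 0 → i ∈ F) : S.1 ≤ F.card := by
  have h1 := Finset.card_le_card (fun i hi => hF i (Finset.mem_filter.1 hi).2 :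
    keptP n S ⊆ F)
  rw [kept_card h] at h1
  exact h1

theorem T12b_N (x : InT.den) (A0 : CooT.den) (hok : CooOK x.1.1 x.1.1 A0)
    (hsi : ∀ i j, ((range A0.1).filter fun e => A0.2.1 e = i ∧ A0.2.2.1 e = j).card ≤ 1) :
    (suppP x A0).card = A0.1 := by
  have h1 := supp_filter x A0 hok hsi (fun _ _ => True)
  rw [Finset.filter_true_of_mem (fun _ _ => trivial),
    Finset.filter_true_of_mem (fun _ _ => trivial)] at h1
  rw [h1]
  exact Finset.card_range _

theorem T12b_row (x : InT.den) (A0 : CooT.den) (hok : CooOK x.1.1 x.1.1 A0)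
    (hsi : ∀ i j, ((range A0.1).filter fun e => A0.2.1 e = i ∧ A0.2.2.1 e = j).card ≤ 1)
    (i : Fin x.1.1) : rowP (suppP x A0) i = rowCnt A0 i := by
  have h1 := supp_filter x A0 hok hsi (fun a _ => a = (i : ℕ))
  unfold rowP rowCnt
  rw [← h1]
  congr 1
  ext p
  simp only [Finset.mem_filter, Fin.ext_iff]

theorem T12b_col (x : InT.den) (A0 : CooT.den) (hok : CooOK x.1.1 x.1.1 A0)
    (hsi : ∀ i j, ((range A0.1).filter fun e => A0.2.1 e = i ∧ A0.2.2.1 e = j).card ≤ 1)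
    (i : Fin x.1.1) : colP (suppP x A0) i = colCnt A0 i := by
  have h1 := supp_filter x A0 hok hsi (fun _ b => b = (i : ℕ))
  unfold colP colCnt
  rw [← h1]
  congr 1
  ext p
  simp only [Finset.mem_filter, Fin.ext_iff]

theorem T12b_pair (x : InT.den) (A0 : CooT.den) (hok : CooOK x.1.1 x.1.1 A0)
    (hsi : ∀ i j, ((range A0.1).filter fun e => A0.2.1 e = i ∧ A0.2.2.1 e = j).card ≤ 1)
    (Q : ℕ → ℕ → Prop) [∀ i j, Decidable (Q i j)] (F : Finset (Fin x.1.1 × Fin x.1.1))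
    (hF : ∀ p ∈ suppP x A0, Q p.1 p.2 → p ∈ F) :
    ((range A0.1).filter fun e => Q (A0.2.1 e) (A0.2.2.1 e)).card ≤ F.card := by
  rw [← supp_filter x A0 hok hsi Q]
  exact Finset.card_le_card fun p hp => hF p (Finset.mem_filter.1 hp).1 (Finset.mem_filter.1 hp).2

/-! ## arithmetic -/

theorem T12b_6 {L X : ℝ} (hL : 10 ^ 6 ≤ L) (hX : 0 ≤ X) {m m' : ℕ} (hm : m + 1 ≤ m') {y : ℝ}
    (hy : y ≤ 6 * (L ^ m * X)) : y ≤ L ^ m' * X := by
  have hL1 : 1 ≤ L := le_trans (by norm_num) hL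
  have h1 : 6 * L ^ m ≤ L ^ m' := by
    calc 6 * L ^ m ≤ L * L ^ m :=
          mul_le_mul_of_nonneg_right (le_trans (by norm_num) hL) (by positivity)
      _ = L ^ (m + 1) := by ring
      _ ≤ L ^ m' := pow_le_pow_right₀ hL1 hm
  calc y ≤ 6 * (L ^ m * X) := hy
    _ = (6 * L ^ m) * X := by ring
    _ ≤ L ^ m' * X := mul_le_mul_of_nonneg_right h1 hX

section
variable {mm : ℕ → ℕ} (Φ : Lib mm) (c : Cst) (x : InT.den) (A0 : CooT.den) (g : GT.den)
  (A : Matrix (Fin x.1.1) (Fin x.1.1) ℝ) (xs : Fin x.1.1 → ℝ) (sg sn : ℝ) (cs : ℕ)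

/-- is `n ≤ K^b k`? -/
def coreFl : Bool := decide (x.1.1 ≤ pK c x ^ pbb c x * x.1.2)

/-- the sizes of level `j + 1` -/
theorem sizeM_new (hc : Big c) (hs : Setup Φ c x A0 g A xs sg sn) (hcs : 400 ≤ cs) (j : ℕ)
    (st : StT.den) (hL : Lev Φ g (j + 1) st) (s : Fin x.1.1 → ℝ) (D : LD x.1.1)
    (hSp : ∀ i : Fin x.1.1, (st.2.1.1 (j + 1)).2.1 i ≠ 0 → D.s i ≠ 0)
    (hTp : ∀ i : Fin x.1.1, (st.2.1.2 (j + 1)).2.1 i ≠ 0 → D.t i ≠ 0)
    (hSf : ∀ i : Fin x.1.1, ∀ p, (st.2.1.1 (j + 1)).2.1 i = p + 1 →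
      (st.2.1.1 (j + 1)).2.2.2 p = if D.e i < ph c x then 1 else 0)
    (hTf : ∀ i : Fin x.1.1, ∀ p, (st.2.1.2 (j + 1)).2.1 i = p + 1 →
      (st.2.1.2 (j + 1)).2.2.2 p = if D.f i < ph c x then 1 else 0)
    (hs0 : ∀ i : Fin x.1.1, (st.2.1.1 j).2.1 i ≠ 0 → s i ≠ 0)
    (hp1 : ∑ p, (if s p = 0 then (0 : ℝ) else 1) ≤
      (pl c x : ℝ) ^ (cs - 100) * (x.1.2 ^ 2 + eta sg (lamM c x g (j + 1)) * x.2.1))
    (hp2 : ∑ p : Fin x.1.1, (if s p = 0 then (0 : ℝ) else
      ((min (pl c x * rowCnt A0 p) (pm1 c x) : ℕ) : ℝ)) ≤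
      (pl c x : ℝ) ^ (cs - 100) * (x.1.2 ^ 2 + eta sg (lamM c x g (j + 1)) * x.2.1))
    (hG : SizeG (pl c x) 20 x.1.2 (pm1 c x) (pm2 c x) (ph c x) (coreFl c x) sg
      (lamM c x g (j + 1)) (lamM c x g (j + 2)) (En x g) (suppP x A0) s D) :
    SizeM c x g sg cs (j + 1) st := by
  classical
  have gok := hs.gok
  have hsi := hs.simple
  have hok := gok.Aok
  -- dimensions
  have hn0 : gP g 0 = x.1.1 := by rw [gP, gok.hP]; rfl
  obtain ⟨h1S, h1T, h1D⟩ := hL.2.2.1 (j + 1) le_rfl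
  obtain ⟨h0S, -, -⟩ := hL.2.2.1 j (Nat.le_succ j)
  have h1F := hL.2.2.2 j (Nat.lt_succ_self j)
  rw [hn0] at h1S h1T h0S
  obtain ⟨S, hSdef⟩ : ∃ S, S = st.2.1.1 (j + 1) := ⟨_, rfl⟩
  obtain ⟨T, hTdef⟩ : ∃ T, T = st.2.1.2 (j + 1) := ⟨_, rfl⟩
  obtain ⟨S0, hS0def⟩ : ∃ S0, S0 = st.2.1.1 j := ⟨_, rfl⟩
  rw [← hSdef] at h1S h1D hSp hSf
  rw [← hTdef] at h1T h1D h1F hTp hTf
  rw [← hS0def] at h0S h1F hs0
  -- numbers
  obtain ⟨L, hLdef⟩ : ∃ L : ℝ, L = (pl c x : ℝ) := ⟨_, rfl⟩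
  have hL6 : 10 ^ 6 ≤ L := by
    rw [hLdef]
    have h1 : 10 ^ 6 ≤ pl c x := hc.c1.trans (Nat.le_add_left _ _)
    exact_mod_cast h1
  have hL1 : 1 ≤ L := le_trans (by norm_num) hL6
  have hL0 : 0 < L := by linarith
  obtain ⟨e, hedef⟩ : ∃ e : ℝ, e = eta sg (lamM c x g (j + 1)) := ⟨_, rfl⟩
  have hee : etaL sg (lamM c x g (j + 1)) = e := hedef.symm
  have hlam : 0 < lamM c x g (j + 1) := by
    unfold lamM
    have h1 : (0 : ℝ) < pK c x := by
      unfold pK
      positivity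
    exact mul_pos hs.lam_pos (pow_pos (inv_pos.2 h1) _)
  have he0 : 0 ≤ e := by
    rw [hedef]
    exact le_min zero_le_one (div_nonneg hs.sg_pos.le hlam.le)
  have hk1 : 1 ≤ x.1.2 := le_trans hs.h1 (le_of_lt hs.h2)
  obtain ⟨k, hkdef⟩ : ∃ k : ℝ, k = (x.1.2 : ℝ) := ⟨_, rfl⟩
  have hk : 1 ≤ k := by rw [hkdef]; exact_mod_cast hk1
  obtain ⟨N, hNdef⟩ : ∃ N : ℝ, N = (x.2.1 : ℝ) := ⟨_, rfl⟩
  have hN0 : 0 ≤ N := by rw [hNdef]; exact Nat.cast_nonneg _
  have hnN : (x.1.1 : ℝ) ≤ N := by rw [hNdef]; exact_mod_cast hs.h4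
  have hPN : ((suppP x A0).card : ℝ) = N := by
    rw [T12b_N x A0 hok hsi, gok.len, hNdef]
  obtain ⟨X, hXdef⟩ : ∃ X : ℝ, X = k ^ 2 + e * N := ⟨_, rfl⟩
  have heN : 0 ≤ e * N := mul_nonneg he0 hN0
  have hX0 : 0 ≤ X := by rw [hXdef]; positivity
  obtain ⟨hm1, hm2, -⟩ := par_m c hc x hk1
  have hm1R : (pm1 c x : ℝ) ≤ L ^ 20 * k := by rw [hLdef, hkdef]; exact_mod_cast hm1
  have hm2R : (pm2 c x : ℝ) ≤ L ^ 20 * k := by rw [hLdef, hkdef]; exact_mod_cast hm2
  -- the sizes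
  have e1 : (130 + 20 : ℕ) = 150 := rfl
  have e2 : (250 + 2 * 20 : ℕ) = 290 := rfl
  have hnR := hG.nR
  have hnC := hG.nC
  have hpairs := hG.pairs
  have hpairs0 := hG.pairs0
  have hrows := hG.rows
  have hcols := hG.cols
  have hheavyR := hG.heavyR
  have hheavyC := hG.heavyC
  have hlight := hG.light
  have hlightR := hG.lightR
  have hlightC := hG.lightC
  rw [e1, hee, ← hLdef, ← hkdef] at hnR hnC
  rw [e2, hee, hPN, ← hLdef, ← hkdef, ← hXdef] at hpairs hpairs0 hrows hcols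
  rw [hPN, ← hLdef] at hlight hlightR hlightC
  rw [← hedef, ← hLdef, ← hkdef, ← hNdef, ← hXdef] at hp1 hp2
  have hkx : k + e * x.1.1 ≤ k + e * N := by
    have := mul_le_mul_of_nonneg_left hnN he0
    linarith
  have hS1' : (S.1 : ℝ) ≤ L ^ 150 * (k + e * N) := by
    refine le_trans ?_ (hnR.trans (mul_le_mul_of_nonneg_left hkx (by positivity)))
    exact_mod_cast T12b_S h1S _ fun i hi => Finset.mem_filter.2 ⟨Finset.mem_univ _, hSp i hi⟩
  have hT1' : (T.1 : ℝ) ≤ L ^ 150 * (k + e * N) := by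
    refine le_trans ?_ (hnC.trans (mul_le_mul_of_nonneg_left hkx (by positivity)))
    exact_mod_cast T12b_S h1T _ fun i hi => Finset.mem_filter.2 ⟨Finset.mem_univ _, hTp i hi⟩
  have hkX : L ^ 150 * (k + e * N) ≤ L ^ 290 * X := by
    refine mul_le_mul (pow_le_pow_right₀ hL1 (by norm_num)) ?_ (by positivity) (by positivity)
    rw [hXdef]
    nlinarith
  have hS1 := hS1'.trans hkX
  have hT1 := hT1'.trans hkX
  have hmm : ((((gE g).2.1.1 + 1) * ((gE g).2.1.2 + 1) : ℕ) : ℝ) ≤ L ^ 290 * X := by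
    rw [gok.mid]
    push_cast
    have h1 : (1 : ℝ) ≤ L ^ 20 * k := one_le_mul_of_one_le_of_one_le (one_le_pow₀ hL1) hk
    calc ((pm1 c x : ℝ) + 1) * ((pm2 c x : ℝ) + 1) ≤ (2 * (L ^ 20 * k)) * (2 * (L ^ 20 * k)) :=
          mul_le_mul (by linarith) (by linarith) (by positivity) (by positivity)
      _ = 4 * L ^ 40 * k ^ 2 := by ring
      _ ≤ L ^ 290 * k ^ 2 := by
          refine mul_le_mul_of_nonneg_right ?_ (sq_nonneg k)
          calc 4 * L ^ 40 ≤ L * L ^ 40 :=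
                mul_le_mul_of_nonneg_right (le_trans (by norm_num) hL6) (by positivity)
            _ = L ^ 41 := by ring
            _ ≤ L ^ 290 := pow_le_pow_right₀ hL1 (by norm_num)
      _ ≤ L ^ 290 * X := by
          refine mul_le_mul_of_nonneg_left ?_ (by positivity)
          rw [hXdef]
          linarith
  -- rows and columns of the elimination
  have hrowle : ∀ i : Fin x.1.1, (rowCnt (gE g).2.2.1.2 i : ℝ) ≤
      ((min (pl c x * rowP (suppP x A0) i) (pm1 c x) : ℕ) : ℝ) := fun i => by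
    rw [T12b_row x A0 hok hsi]
    exact_mod_cast gok.row i i.2
  have hcolle : ∀ i : Fin x.1.1, (colCnt (gE g).2.2.2.1 i : ℝ) ≤
      ((min (pl c x * colP (suppP x A0) i) (pm2 c x) : ℕ) : ℝ) := fun i => by
    rw [T12b_col x A0 hok hsi]
    exact_mod_cast gok.col i i.2
  have hrow : ((∑ i ∈ keptP x.1.1 S, rowCnt (gE g).2.2.1.2 i : ℕ) : ℝ) ≤ L ^ 290 * X := by
    push_cast
    refine le_trans (Finset.sum_le_sum fun i _ => hrowle i) (le_trans ?_ hrows)
    refine Finset.sum_le_sum_of_subset_of_nonneg (fun i hi => ?_) (fun i _ _ => Nat.cast_nonneg _)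
    exact Finset.mem_filter.2 ⟨Finset.mem_univ _, hSp i (Finset.mem_filter.1 hi).2⟩
  have hcol : ((∑ i ∈ keptP x.1.1 T, colCnt (gE g).2.2.2.1 i : ℕ) : ℝ) ≤ L ^ 290 * X := by
    push_cast
    refine le_trans (Finset.sum_le_sum fun i _ => hcolle i) (le_trans ?_ hcols)
    refine Finset.sum_le_sum_of_subset_of_nonneg (fun i hi => ?_) (fun i _ _ => Nat.cast_nonneg _)
    exact Finset.mem_filter.2 ⟨Finset.mem_univ _, hTp i (Finset.mem_filter.1 hi).2⟩
  have hpair : (pairN A0 S T : ℝ) ≤ L ^ 290 * X := by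
    refine le_trans ?_ hpairs
    have h1 := T12b_pair x A0 hok hsi (fun i j => S.2.1 i ≠ 0 ∧ T.2.1 j ≠ 0)
      ((suppP x A0).filter fun p => D.s p.1 ≠ 0 ∧ D.t p.2 ≠ 0)
      (fun p hp hQ => Finset.mem_filter.2 ⟨hp, hSp p.1 hQ.1, hTp p.2 hQ.2⟩)
    refine le_trans (Nat.cast_le.2 h1) (le_of_eq ?_)
    congr!
  have hpair0 : (pairN A0 S0 T : ℝ) ≤ L ^ 290 * X := by
    refine le_trans ?_ hpairs0
    have h1 := T12b_pair x A0 hok hsi (fun i j => S0.2.1 i ≠ 0 ∧ T.2.1 j ≠ 0)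
      ((suppP x A0).filter fun p => s p.1 ≠ 0 ∧ D.t p.2 ≠ 0)
      (fun p hp hQ => Finset.mem_filter.2 ⟨hp, hs0 p.1 hQ.1, hTp p.2 hQ.2⟩)
    refine le_trans (Nat.cast_le.2 h1) (le_of_eq ?_)
    congr!
  have hgX : (pl c x : ℝ) ^ cs * ((x.1.2 : ℝ) ^ 2 + eta sg (lamM c x g (j + 1)) * x.2.1) =
      L ^ cs * X := by rw [hXdef, hLdef, hkdef, hedef, hNdef]
  -- light rows, light columns
  have hlS : ∀ i : Fin x.1.1, S.2.1 i ≠ 0 → S.2.2.2 (S.2.1 i - 1) = 0 →
      ph c x ≤ D.e i := by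
    intro i hi h
    obtain ⟨p, hp⟩ := Nat.exists_eq_succ_of_ne_zero hi
    have h2 := hSf i p hp
    rw [hp] at h
    have h' : S.2.2.2 p = 0 := h
    rw [h'] at h2
    by_contra h3
    rw [if_pos (not_le.1 h3)] at h2
    exact absurd h2 (by norm_num)
  have hlT : ∀ i : Fin x.1.1, T.2.1 i ≠ 0 → T.2.2.2 (T.2.1 i - 1) = 0 →
      ph c x ≤ D.f i := by
    intro i hi h
    obtain ⟨p, hp⟩ := Nat.exists_eq_succ_of_ne_zero hi
    have h2 := hTf i p hp
    rw [hp] at h
    have h' : T.2.2.2 p = 0 := h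
    rw [h'] at h2
    by_contra h3
    rw [if_pos (not_le.1 h3)] at h2
    exact absurd h2 (by norm_num)
  -- heavy rows, heavy columns
  have hvR : (pK c x : ℝ) ^ pbb c x * sg ≤ lamM c x g (j + 1) →
      (((keptP x.1.1 S).filter (fun i : Fin x.1.1 => S.2.2.2 (S.2.1 i - 1) ≠ 0)).card : ℝ) ≤
        L ^ 150 * k := by
    intro hheavy
    rcases Nat.eq_zero_or_pos (ph c x) with h0 | h0
    · have h3 : (keptP x.1.1 S).filter (fun i : Fin x.1.1 => S.2.2.2 (S.2.1 i - 1) ≠ 0) = ∅ := by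
        rw [Finset.filter_eq_empty_iff]
        intro i hi
        obtain ⟨p, hp⟩ := Nat.exists_eq_succ_of_ne_zero (Finset.mem_filter.1 hi).2
        have h2 := hSf i p hp
        rw [h0, if_neg (Nat.not_lt_zero _)] at h2
        rw [not_not, hp]
        exact h2
      rw [h3, Finset.card_empty, Nat.cast_zero]
      exact mul_nonneg (pow_nonneg hL0.le _) (le_trans zero_le_one hk)
    · have h1 := hheavyR (by
        have := heavy_num c hc x hs.h1 hk1 hs.h5 h0 sg (lamM c x g (j + 1)) hs.sg_pos hheavy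
        exact this)
      rw [e1, ← hLdef, ← hkdef] at h1
      refine le_trans (Nat.cast_le.2 (Finset.card_le_card fun i hi => ?_)) h1
      obtain ⟨hi1, hi2⟩ := Finset.mem_filter.1 hi
      have hi3 := (Finset.mem_filter.1 hi1).2
      refine Finset.mem_filter.2 ⟨Finset.mem_univ _, hSp i hi3, ?_⟩
      obtain ⟨p, hp⟩ := Nat.exists_eq_succ_of_ne_zero hi3
      have h2 := hSf i p hp
      by_contra h3
      rw [if_neg h3] at h2
      apply hi2
      rw [hp]
      exact h2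
  have hvC : (pK c x : ℝ) ^ pbb c x * sg ≤ lamM c x g (j + 1) →
      (((keptP x.1.1 T).filter (fun i : Fin x.1.1 => T.2.2.2 (T.2.1 i - 1) ≠ 0)).card : ℝ) ≤
        L ^ 150 * k := by
    intro hheavy
    rcases Nat.eq_zero_or_pos (ph c x) with h0 | h0
    · have h3 : (keptP x.1.1 T).filter (fun i : Fin x.1.1 => T.2.2.2 (T.2.1 i - 1) ≠ 0) = ∅ := by
        rw [Finset.filter_eq_empty_iff]
        intro i hi
        obtain ⟨p, hp⟩ := Nat.exists_eq_succ_of_ne_zero (Finset.mem_filter.1 hi).2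
        have h2 := hTf i p hp
        rw [h0, if_neg (Nat.not_lt_zero _)] at h2
        rw [not_not, hp]
        exact h2
      rw [h3, Finset.card_empty, Nat.cast_zero]
      exact mul_nonneg (pow_nonneg hL0.le _) (le_trans zero_le_one hk)
    · have h1 := hheavyC (by
        have := heavy_num c hc x hs.h1 hk1 hs.h5 h0 sg (lamM c x g (j + 1)) hs.sg_pos hheavy
        exact this)
      rw [e1, ← hLdef, ← hkdef] at h1
      refine le_trans (Nat.cast_le.2 (Finset.card_le_card fun i hi => ?_)) h1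
      obtain ⟨hi1, hi2⟩ := Finset.mem_filter.1 hi
      have hi3 := (Finset.mem_filter.1 hi1).2
      refine Finset.mem_filter.2 ⟨Finset.mem_univ _, hTp i hi3, ?_⟩
      obtain ⟨p, hp⟩ := Nat.exists_eq_succ_of_ne_zero hi3
      have h2 := hTf i p hp
      by_contra h3
      rw [if_neg h3] at h2
      apply hi2
      rw [hp]
      exact h2
  -- the number of entries outside the heavy blocks
  obtain ⟨q, hqdef⟩ : ∃ q : ℝ, q = (1 / 4 : ℝ) ^ ph c x := ⟨_, rfl⟩
  have hq0 : 0 ≤ q := by rw [hqdef]; positivity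
  rw [← hqdef] at hlight hlightR hlightC
  have hrest6 : (opRest (Φ.mkOp (gE g, (S, T))) S.2.2.2 T.2.2.2 : ℝ) ≤
      6 * (L ^ 150 * (k + (e + q) * N)) := by
    have hpR : (pairR A0 S T : ℝ) ≤ L ^ 10 * q * N := by
      refine le_trans ?_ hlight
      have h1 := T12b_pair x A0 hok hsi (fun i j => S.2.1 i ≠ 0 ∧ T.2.1 j ≠ 0 ∧
          S.2.2.2 (S.2.1 i - 1) = 0)
        ((suppP x A0).filter fun p => D.s p.1 ≠ 0 ∧ D.t p.2 ≠ 0 ∧
          (ph c x ≤ D.e p.1 ∨ ph c x ≤ D.f p.2))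
        (fun p hp hQ => Finset.mem_filter.2 ⟨hp, hSp p.1 hQ.1, hTp p.2 hQ.2.1,
          Or.inl (hlS p.1 hQ.1 hQ.2.2)⟩)
      refine le_trans (Nat.cast_le.2 h1) (le_of_eq ?_)
      congr!
    have hpC : (pairC A0 S T : ℝ) ≤ L ^ 10 * q * N := by
      refine le_trans ?_ hlight
      have h1 := T12b_pair x A0 hok hsi (fun i j => S.2.1 i ≠ 0 ∧ T.2.1 j ≠ 0 ∧
          T.2.2.2 (T.2.1 j - 1) = 0)
        ((suppP x A0).filter fun p => D.s p.1 ≠ 0 ∧ D.t p.2 ≠ 0 ∧
          (ph c x ≤ D.e p.1 ∨ ph c x ≤ D.f p.2))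
        (fun p hp hQ => Finset.mem_filter.2 ⟨hp, hSp p.1 hQ.1, hTp p.2 hQ.2.1,
          Or.inr (hlT p.2 hQ.2.1 hQ.2.2)⟩)
      refine le_trans (Nat.cast_le.2 h1) (le_of_eq ?_)
      congr!
    have hlr : ((∑ i ∈ (keptP x.1.1 S).filter (fun i : Fin x.1.1 => S.2.2.2 (S.2.1 i - 1) = 0),
        rowCnt (gE g).2.2.1.2 i : ℕ) : ℝ) ≤ L ^ 6 * q * N := by
      push_cast
      refine le_trans (Finset.sum_le_sum fun i _ => hrowle i) (le_trans ?_ hlightR)
      refine Finset.sum_le_sum_of_subset_of_nonneg (fun i hi => ?_)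
        (fun i _ _ => Nat.cast_nonneg _)
      obtain ⟨hi1, hi2⟩ := Finset.mem_filter.1 hi
      have hi3 := (Finset.mem_filter.1 hi1).2
      exact Finset.mem_filter.2 ⟨Finset.mem_univ _, hSp i hi3, hlS i hi3 hi2⟩
    have hlc : ((∑ i ∈ (keptP x.1.1 T).filter (fun i : Fin x.1.1 => T.2.2.2 (T.2.1 i - 1) = 0),
        colCnt (gE g).2.2.2.1 i : ℕ) : ℝ) ≤ L ^ 6 * q * N := by
      push_cast
      refine le_trans (Finset.sum_le_sum fun i _ => hcolle i) (le_trans ?_ hlightC)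
      refine Finset.sum_le_sum_of_subset_of_nonneg (fun i hi => ?_)
        (fun i _ _ => Nat.cast_nonneg _)
      obtain ⟨hi1, hi2⟩ := Finset.mem_filter.1 hi
      have hi3 := (Finset.mem_filter.1 hi1).2
      exact Finset.mem_filter.2 ⟨Finset.mem_univ _, hTp i hi3, hlT i hi3 hi2⟩
    have hrest := mk_rest Φ (gE g) S T gok.ok gok.dim h1S h1T
    rw [gok.lst] at hrest
    refine le_trans (Nat.cast_le.2 hrest) ?_
    have hY0 : 0 ≤ k + (e + q) * N := by positivity
    have hqN : 0 ≤ q * N := mul_nonneg hq0 hN0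
    have hY : k + (e + q) * N = k + e * N + q * N := by ring
    have hk0 : 0 ≤ k := le_trans zero_le_one hk
    have b1 : L ^ 150 * (k + e * N) ≤ L ^ 150 * (k + (e + q) * N) := by
      refine mul_le_mul_of_nonneg_left ?_ (pow_nonneg hL0.le _)
      rw [hY]
      exact le_add_of_nonneg_right hqN
    have hqY : q * N ≤ k + (e + q) * N := by
      rw [hY]
      exact le_add_of_nonneg_left (add_nonneg hk0 heN)
    have b2 : L ^ 10 * q * N ≤ L ^ 150 * (k + (e + q) * N) := by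
      rw [mul_assoc]
      exact mul_le_mul (pow_le_pow_right₀ hL1 (by norm_num)) hqY hqN (pow_nonneg hL0.le _)
    have b3 : L ^ 6 * q * N ≤ L ^ 150 * (k + (e + q) * N) := by
      rw [mul_assoc]
      exact mul_le_mul (pow_le_pow_right₀ hL1 (by norm_num)) hqY hqN (pow_nonneg hL0.le _)
    have c1 := hS1'.trans b1
    have c2 := hT1'.trans b1
    have c3 := hpR.trans b2
    have c4 := hpC.trans b2
    have c5 := hlr.trans b3
    have c6 := hlc.trans b3
    clear * - c1 c2 c3 c4 c5 c6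
    push_cast at c5 c6 ⊢
    linarith
  -- caps
  have hcap : ∀ m : ℕ, (m : ℝ) ≤ L ^ 150 * k → m ≤ phcap c x := by
    intro m hm
    have h1 : ((m : ℕ) : ℝ) ≤ ((phcap c x : ℕ) : ℝ) := by
      unfold phcap pBd
      push_cast
      rw [← hLdef, ← hkdef]
      have h2 : L ^ 150 ≤ L ^ c.cB := by
        refine pow_le_pow_right₀ hL1 ?_
        have := hc.cB
        omega
      exact hm.trans (mul_le_mul h2 (by linarith) (by linarith) (by positivity))
    exact_mod_cast h1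
  refine ⟨?_, fun _ => ?_, fun hheavy => ?_, ?_, fun hmd hheavy => ?_⟩
  · -- szD
    rw [hgX, h1D, mk_size Φ (gE g) S T gok.ok gok.dim h1S h1T, gok.lst]
    refine T12b_6 hL6 hX0 (m := 290) (by omega) ?_
    push_cast at hrow hcol hmm ⊢
    linarith
  · -- szF
    have h300 : L ^ 290 ≤ L ^ (cs - 100) := pow_le_pow_right₀ hL1 (by omega)
    have h301 : L ^ 290 * X ≤ L ^ (cs - 100) * X := mul_le_mul_of_nonneg_right h300 hX0
    have hS01 : (S0.1 : ℝ) ≤ L ^ (cs - 100) * X := by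
      refine le_trans ?_ hp1
      have h1 := T12b_S h0S (Finset.univ.filter fun i => s i ≠ 0)
        fun i hi => Finset.mem_filter.2 ⟨Finset.mem_univ _, hs0 i hi⟩
      refine le_trans (Nat.cast_le.2 h1) (le_of_eq ?_)
      rw [Finset.card_filter]
      push_cast
      refine Finset.sum_congr rfl fun i _ => ?_
      by_cases h2 : s i = 0 <;> simp [h2]
    have hrow0 : ((∑ i ∈ keptP x.1.1 S0, rowCnt (gE g).2.2.1.2 i : ℕ) : ℝ) ≤
        L ^ (cs - 100) * X := by
      push_cast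
      refine le_trans (Finset.sum_le_sum fun i _ => hrowle i) (le_trans ?_ hp2)
      rw [← Finset.sum_filter_add_sum_filter_not Finset.univ (fun i => s i = 0)
        (fun p => if s p = 0 then (0 : ℝ) else ((min (pl c x * rowCnt A0 p) (pm1 c x) : ℕ) : ℝ))]
      have h2 : ∑ p ∈ Finset.univ.filter (fun i => s i = 0), (if s p = 0 then (0 : ℝ) else
          ((min (pl c x * rowCnt A0 p) (pm1 c x) : ℕ) : ℝ)) = 0 :=
        Finset.sum_eq_zero fun p hp => if_pos (Finset.mem_filter.1 hp).2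
      rw [h2, zero_add]
      have h3 : ∑ p ∈ Finset.univ.filter (fun i => ¬ s i = 0), (if s p = 0 then (0 : ℝ) else
          ((min (pl c x * rowCnt A0 p) (pm1 c x) : ℕ) : ℝ)) =
          ∑ p ∈ Finset.univ.filter (fun i => ¬ s i = 0),
            ((min (pl c x * rowP (suppP x A0) p) (pm1 c x) : ℕ) : ℝ) :=
        Finset.sum_congr rfl fun p hp => by
          rw [if_neg (Finset.mem_filter.1 hp).2, T12b_row x A0 hok hsi]
      rw [h3]
      refine Finset.sum_le_sum_of_subset_of_nonneg (fun i hi => ?_)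
        (fun i _ _ => Nat.cast_nonneg _)
      exact Finset.mem_filter.2 ⟨Finset.mem_univ _, hs0 i (Finset.mem_filter.1 hi).2⟩
    rw [hgX, h1F, mk_size Φ (gE g) S0 T gok.ok gok.dim h0S h1T, gok.lst]
    refine T12b_6 hL6 hX0 (m := cs - 100) (by omega) ?_
    push_cast at hrow0 hcol hmm ⊢
    linarith
  · -- heavy
    have h20 : L ^ 20 * k ≤ L ^ 150 * k :=
      mul_le_mul_of_nonneg_right (pow_le_pow_right₀ hL1 (by norm_num)) (by linarith)
    rw [h1D, ← hSdef, ← hTdef]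
    refine mk_heavy Φ (gE g) S T gok.ok gok.dim h1S h1T _ ?_ ?_ ?_ ?_
    · rw [gok.mid]
      exact hcap _ (hm1R.trans h20)
    · rw [gok.mid]
      exact hcap _ (hm2R.trans h20)
    · exact hcap _ (hvR hheavy)
    · exact hcap _ (hvC hheavy)
  · -- rest
    have hgY : (pl c x : ℝ) ^ cs * ((x.1.2 : ℝ) + (eta sg (lamM c x g (j + 1)) +
        (1 / 4) ^ ph c x) * x.2.1) = L ^ cs * (k + (e + q) * N) := by
      rw [hLdef, hkdef, hedef, hNdef, hqdef]
    rw [hgY, h1D, ← hSdef, ← hTdef]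
    have hY0 : 0 ≤ k + (e + q) * N := by positivity
    exact T12b_6 hL6 hY0 (m := 150) (by omega) hrest6
  · -- core
    rw [h1D, ← hSdef, ← hTdef]
    refine mk_core Φ (gE g) S T gok.ok gok.dim h1S h1T (pK c x ^ pbb c x)
      (18 * pl c x ^ (150 + 2 * c.ch) * x.1.2) (phcap c x) ?_
    have hKb0 : (0 : ℝ) < (pK c x : ℝ) ^ pbb c x := by
      have h1 : (0 : ℝ) < pK c x := by
        unfold pK
        positivity
      positivity
    obtain ⟨Kb, hKbdef⟩ : ∃ Kb : ℝ, Kb = (pK c x : ℝ) ^ pbb c x := ⟨_, rfl⟩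
    have hqK := T12h_q hc x
    have heK : e * Kb ≤ 1 := by
      have h1 : e ≤ sg / lamM c x g (j + 1) := by rw [hedef]; exact min_le_right _ _
      rw [← hKbdef] at hheavy hKb0
      calc e * Kb ≤ sg / lamM c x g (j + 1) * Kb := mul_le_mul_of_nonneg_right h1 hKb0.le
        _ = (Kb * sg) / lamM c x g (j + 1) := by ring
        _ ≤ 1 := by
            rw [div_le_one hlam]
            exact hheavy
    have hvR' := hvR hheavy
    have hvC' := hvC hheavy
    rw [← hKbdef] at hKb0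
    rw [← hqdef, ← hKbdef, ← hLdef] at hqK
    have hcapR : ((phcap c x : ℕ) : ℝ) = L ^ c.cB * (k + 1) := by
      unfold phcap pBd
      push_cast
      rw [← hLdef, ← hkdef]
    have hcB := hc.cB
    have hfin : ∀ y : ℝ, y ≤ 20 * (L ^ (160 + 4 * c.ch) * k) → y ≤ L ^ c.cB * (k + 1) := by
      intro y hy
      refine hy.trans ?_
      have h1 : 20 * L ^ (160 + 4 * c.ch) ≤ L ^ c.cB := by
        calc 20 * L ^ (160 + 4 * c.ch) ≤ L * L ^ (160 + 4 * c.ch) :=
              mul_le_mul_of_nonneg_right (le_trans (by norm_num) hL6) (by positivity)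
          _ = L ^ (160 + 4 * c.ch + 1) := by ring
          _ ≤ L ^ c.cB := pow_le_pow_right₀ hL1 (by omega)
      calc 20 * (L ^ (160 + 4 * c.ch) * k) = (20 * L ^ (160 + 4 * c.ch)) * k := by ring
        _ ≤ L ^ c.cB * (k + 1) := mul_le_mul h1 (by linarith) (by linarith) (by positivity)
    have hp1 : L ^ 150 ≤ L ^ (160 + 4 * c.ch) := pow_le_pow_right₀ hL1 (by omega)
    have hp2 : L ^ (150 + 2 * c.ch) ≤ L ^ (160 + 4 * c.ch) := pow_le_pow_right₀ hL1 (by omega)
    have hp3 : L ^ (5 + 2 * c.ch) ≤ L ^ (160 + 4 * c.ch) := pow_le_pow_right₀ hL1 (by omega)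
    have hp4 : L ^ (10 + 4 * c.ch) ≤ L ^ (160 + 4 * c.ch) := pow_le_pow_right₀ hL1 (by omega)
    have hk0 : 0 ≤ k := le_trans zero_le_one hk
    have hq1 := mul_le_mul_of_nonneg_right hp1 hk0
    have hq2 := mul_le_mul_of_nonneg_right hp2 hk0
    have hq3 := mul_le_mul_of_nonneg_right hp3 hk0
    have hq4 := mul_le_mul_of_nonneg_right hp4 hk0
    by_cases hfl : x.1.1 ≤ pK c x ^ pbb c x * x.1.2
    · left
      have hflt : coreFl c x = true := by
        unfold coreFl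
        exact decide_eq_true hfl
      have hcR := hG.cntR hflt
      have hcC := hG.cntC hflt
      rw [← hqdef, ← hLdef] at hcR hcC
      have hnk : (x.1.1 : ℝ) ≤ Kb * k := by
        rw [hKbdef, hkdef]
        exact_mod_cast hfl
      have hbd : L ^ 5 * q * x.1.1 ≤ L ^ (5 + 2 * c.ch) * k := by
        calc L ^ 5 * q * x.1.1 ≤ L ^ 5 * q * (Kb * k) :=
              mul_le_mul_of_nonneg_left hnk (mul_nonneg (pow_nonneg hL0.le _) hq0)
          _ = L ^ 5 * (q * Kb) * k := by ring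
          _ ≤ L ^ 5 * L ^ (2 * c.ch) * k :=
              mul_le_mul_of_nonneg_right (mul_le_mul_of_nonneg_left hqK (by positivity)) hk0
          _ = L ^ (5 + 2 * c.ch) * k := by rw [pow_add]
      have split : ∀ (W : SDT.den), SDOK x.1.1 W → (W.1 : ℝ) =
          (((keptP x.1.1 W).filter (fun i : Fin x.1.1 => W.2.2.2 (W.2.1 i - 1) ≠ 0)).card : ℝ) +
          (((keptP x.1.1 W).filter (fun i : Fin x.1.1 => W.2.2.2 (W.2.1 i - 1) = 0)).card : ℝ) := by
        intro W hW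
        have h1 := Finset.card_filter_add_card_filter_not
          (s := keptP x.1.1 W) (fun i : Fin x.1.1 => W.2.2.2 (W.2.1 i - 1) = 0)
        rw [kept_card hW] at h1
        rw [← h1]
        push_cast
        ring
      constructor
      · have h1 : (((keptP x.1.1 S).filter
            (fun i : Fin x.1.1 => S.2.2.2 (S.2.1 i - 1) = 0)).card : ℝ) ≤ L ^ 5 * q * x.1.1 := by
          refine le_trans (Nat.cast_le.2 (Finset.card_le_card fun i hi => ?_)) hcR
          obtain ⟨hi1, hi2⟩ := Finset.mem_filter.1 hi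
          have hi3 := (Finset.mem_filter.1 hi1).2
          exact Finset.mem_filter.2 ⟨Finset.mem_univ _, hSp i hi3, hlS i hi3 hi2⟩
        have h2 : ((S.1 : ℕ) : ℝ) ≤ ((phcap c x : ℕ) : ℝ) := by
          rw [hcapR]
          refine hfin _ ?_
          rw [split S h1S]
          linarith
        exact_mod_cast h2
      · have h1 : (((keptP x.1.1 T).filter
            (fun i : Fin x.1.1 => T.2.2.2 (T.2.1 i - 1) = 0)).card : ℝ) ≤ L ^ 5 * q * x.1.1 := by
          refine le_trans (Nat.cast_le.2 (Finset.card_le_card fun i hi => ?_)) hcC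
          obtain ⟨hi1, hi2⟩ := Finset.mem_filter.1 hi
          have hi3 := (Finset.mem_filter.1 hi1).2
          exact Finset.mem_filter.2 ⟨Finset.mem_univ _, hTp i hi3, hlT i hi3 hi2⟩
        have h2 : ((T.1 : ℕ) : ℝ) ≤ ((phcap c x : ℕ) : ℝ) := by
          rw [hcapR]
          refine hfin _ ?_
          rw [split T h1T]
          linarith
        exact_mod_cast h2
    · right
      have hflf : coreFl c x = false := by
        unfold coreFl
        exact decide_eq_false hfl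
      have hNK : N ≤ Kb * Kb * k := by
        rcases T12h_pbB c hc x hk1 hmd with h1 | h1
        · exact absurd h1 hfl
        · have h2 : (x.2.1 : ℝ) ≤ (pK c x : ℝ) ^ (2 * pbb c x) * x.1.2 := by exact_mod_cast h1
          rw [hNdef, hKbdef, hkdef]
          refine h2.trans (le_of_eq ?_)
          rw [two_mul, pow_add]
      have hl2 := hG.light2 hflf
      rw [← hqdef, ← hLdef, hPN] at hl2
      have hpL : (pairL A0 S T : ℝ) ≤ L ^ 10 * q ^ 2 * N := by
        refine le_trans ?_ hl2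
        have h1 := T12b_pair x A0 hok hsi (fun i j => S.2.1 i ≠ 0 ∧ T.2.1 j ≠ 0 ∧
            (S.2.2.2 (S.2.1 i - 1) = 0 ∧ T.2.2.2 (T.2.1 j - 1) = 0))
          ((suppP x A0).filter fun p => D.s p.1 ≠ 0 ∧ D.t p.2 ≠ 0 ∧
            ph c x ≤ D.e p.1 ∧ ph c x ≤ D.f p.2)
          (fun p hp hQ => Finset.mem_filter.2 ⟨hp, hSp p.1 hQ.1, hTp p.2 hQ.2.1,
            hlS p.1 hQ.1 hQ.2.2.1, hlT p.2 hQ.2.1 hQ.2.2.2⟩)
        refine le_trans (Nat.cast_le.2 h1) (le_of_eq ?_)
        congr!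
      have hpL2 : (pairL A0 S T : ℝ) ≤ L ^ (10 + 4 * c.ch) * k := by
        refine hpL.trans ?_
        have h1 : (q * Kb) * (q * Kb) ≤ L ^ (2 * c.ch) * L ^ (2 * c.ch) :=
          mul_le_mul hqK hqK (mul_nonneg hq0 hKb0.le) (by positivity)
        calc L ^ 10 * q ^ 2 * N ≤ L ^ 10 * q ^ 2 * (Kb * Kb * k) :=
              mul_le_mul_of_nonneg_left hNK (by positivity)
          _ = L ^ 10 * ((q * Kb) * (q * Kb)) * k := by ring
          _ ≤ L ^ 10 * (L ^ (2 * c.ch) * L ^ (2 * c.ch)) * k :=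
              mul_le_mul_of_nonneg_right (mul_le_mul_of_nonneg_left h1 (by positivity)) hk0
          _ = L ^ (10 + 4 * c.ch) * k := by
              rw [← pow_add, ← pow_add]
              congr 2
              ring
      have hmR : ((18 * pl c x ^ (150 + 2 * c.ch) * x.1.2 : ℕ) : ℝ) =
          18 * (L ^ (150 + 2 * c.ch) * k) := by
        push_cast
        rw [← hLdef, ← hkdef]
        ring
      refine ⟨?_, ?_, ?_⟩
      · have h1 : ((opRest (Φ.mkOp (gE g, (S, T))) S.2.2.2 T.2.2.2 : ℕ) : ℝ) ≤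
            ((18 * pl c x ^ (150 + 2 * c.ch) * x.1.2 * pK c x ^ pbb c x : ℕ) : ℝ) := by
          rw [Nat.cast_mul, hmR, Nat.cast_pow, ← hKbdef]
          refine hrest6.trans ?_
          have hKb1 : 1 ≤ Kb := by
            rw [hKbdef]
            have h2 : 1 ≤ pK c x ^ pbb c x := Nat.one_le_pow _ _ (pow_pos (by norm_num) _)
            exact_mod_cast h2
          have hU : 1 ≤ L ^ (2 * c.ch) := one_le_pow₀ hL1
          have h3 : (e + q) * N ≤ 2 * L ^ (2 * c.ch) * (Kb * k) := by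
            calc (e + q) * N ≤ (e + q) * (Kb * Kb * k) :=
                  mul_le_mul_of_nonneg_left hNK (add_nonneg he0 hq0)
              _ = (e * Kb + q * Kb) * (Kb * k) := by ring
              _ ≤ (L ^ (2 * c.ch) + L ^ (2 * c.ch)) * (Kb * k) := by
                  refine mul_le_mul_of_nonneg_right (add_le_add (heK.trans hU) hqK) ?_
                  exact mul_nonneg hKb0.le hk0
              _ = _ := by ring
          have h4 : k ≤ L ^ (2 * c.ch) * (Kb * k) := by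
            calc k = 1 * (1 * k) := by ring
              _ ≤ L ^ (2 * c.ch) * (Kb * k) :=
                  mul_le_mul hU (mul_le_mul_of_nonneg_right hKb1 hk0) (by linarith) (by linarith)
          calc 6 * (L ^ 150 * (k + (e + q) * N))
              ≤ 6 * (L ^ 150 * (L ^ (2 * c.ch) * (Kb * k) + 2 * L ^ (2 * c.ch) * (Kb * k))) := by
                refine mul_le_mul_of_nonneg_left (mul_le_mul_of_nonneg_left ?_ ?_) (by norm_num)
                · exact add_le_add h4 h3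
                · positivity
            _ = 18 * (L ^ 150 * L ^ (2 * c.ch) * k) * Kb := by ring
            _ = 18 * (L ^ (150 + 2 * c.ch) * k) * Kb := by rw [pow_add]
        exact_mod_cast h1
      · have h1 : ((((keptP x.1.1 S).filter
            (fun i : Fin x.1.1 => S.2.2.2 (S.2.1 i - 1) ≠ 0)).card + pairL A0 S T +
            18 * pl c x ^ (150 + 2 * c.ch) * x.1.2 : ℕ) : ℝ) ≤ ((phcap c x : ℕ) : ℝ) := by
          rw [hcapR, Nat.cast_add, hmR, Nat.cast_add]
          refine hfin _ ?_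
          linarith
        rw [gok.lst]
        exact_mod_cast h1
      · have h1 : ((((keptP x.1.1 T).filter
            (fun i : Fin x.1.1 => T.2.2.2 (T.2.1 i - 1) ≠ 0)).card +
            18 * pl c x ^ (150 + 2 * c.ch) * x.1.2 : ℕ) : ℝ) ≤ ((phcap c x : ℕ) : ℝ) := by
          rw [hcapR, Nat.cast_add, hmR]
          refine hfin _ ?_
          linarith
        exact_mod_cast h1

end

end A56
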