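import Pool.Agent.Lib_helper50.A56.TDefs
import Pool.Agent.Lib_helper50.A56.L.LG

/-!
# MP_a55cb8, block T12: definitions (helper78)
-/

open Matrix Finset

namespace A56

/-- positions of the entries of the matrix -/
def suppP (x : InT.den) (A0 : CooT.den) : Finset (Fin x.1.1 × Fin x.1.1) :=
  univ.filter fun p => cnt x A0 p.1 p.2 ≠ 0

/-- the indices kept by a sample -/
def keptP (n : ℕ) (S : SDT.den) : Finset (Fin n) := univ.filter fun i : Fin n => S.2.1 i ≠ 0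

/-- number of entries of the list with kept row and kept column -/
def pairN (A0 : CooT.den) (S T : SDT.den) : ℕ :=
  ((range A0.1).filter fun e => S.2.1 (A0.2.1 e) ≠ 0 ∧ T.2.1 (A0.2.2.1 e) ≠ 0).card

/-- the same with a light row -/
def pairR (A0 : CooT.den) (S T : SDT.den) : ℕ :=
  ((range A0.1).filter fun e => S.2.1 (A0.2.1 e) ≠ 0 ∧ T.2.1 (A0.2.2.1 e) ≠ 0 ∧
    S.2.2.2 (S.2.1 (A0.2.1 e) - 1) = 0).card

/-- the same with a light row and a light column -/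
def pairL (A0 : CooT.den) (S T : SDT.den) : ℕ :=
  ((range A0.1).filter fun e => S.2.1 (A0.2.1 e) ≠ 0 ∧ T.2.1 (A0.2.2.1 e) ≠ 0 ∧
    (S.2.2.2 (S.2.1 (A0.2.1 e) - 1) = 0 ∧ T.2.2.2 (T.2.1 (A0.2.2.1 e) - 1) = 0)).card

/-- the same with a light column -/
def pairC (A0 : CooT.den) (S T : SDT.den) : ℕ :=
  ((range A0.1).filter fun e => S.2.1 (A0.2.1 e) ≠ 0 ∧ T.2.1 (A0.2.2.1 e) ≠ 0 ∧
    T.2.2.2 (T.2.1 (A0.2.2.1 e) - 1) = 0).card

end A56
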